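import Mathlib
import Pool.Agent.Helper55.PM.Defs
import Pool.Agent.Helper55.PM.NP

set_option autoImplicit false

open Set Filter Topology MeasureTheory Manifold Pool.Agent.Helper55.PM
open scoped ContDiff

namespace Pool.Agent.Results.MP_38a3af_an.NoPhysicalMeasure

/-- There are a compact connected smooth Riemannian manifold `M`, a `C^∞` vector field `G` on `M`
without equilibria, a trapping region `U` whose attracting set is partially hyperbolic, and a set
`Ω ⊆ U` of positive volume on which asymptotic sectional expansion holds, although the flow `φ` of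
`G` has no physical measure. -/
theorem result : ∃ (n : ℕ) (M : Type) (_ : TopologicalSpace M)
    (_ : ChartedSpace (EuclideanSpace ℝ (Fin n)) M)
    (_ : IsManifold (𝓡 n) ∞ M) (_ : MeasurableSpace M) (_ : BorelSpace M)
    (g : Riem (EuclideanSpace ℝ (Fin n)) M) (G : VField (EuclideanSpace ℝ (Fin n)) M)
    (φ : ℝ → M → M) (U : Set M) (Es Ecu : Distr (EuclideanSpace ℝ (Fin n)) M) (Ω : Set M),
    CompactSpace M ∧ ConnectedSpace M ∧ T2Space M ∧
    IsVectorField ∞ G ∧ IsFlowOf φ G ∧ (∀ x, G x ≠ 0) ∧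
    IsTrapping φ U ∧ IsPartiallyHyperbolic g φ U Es Ecu ∧
    Ω ⊆ U ∧ MeasurableSet Ω ∧ ¬ IsNull (EuclideanSpace ℝ (Fin n)) Ω ∧ IsASE g φ Ecu Ω ∧
    ∀ μ : Measure M, ¬ IsPhysical (EuclideanSpace ℝ (Fin n)) φ μ :=
  ⟨7, QQ, inferInstance, inferInstance, inferInstance, inferInstance, inferInstance,
    gQ, GG, phi, UU, Es, Ecu, Om, inferInstance, inferInstance, inferInstance,
    isVectorField_GG, isFlowOf_phi, GG_ne, isTrapping_UU, isPartiallyHyperbolic,
    Om_sub, isOpen_Om.measurableSet, not_isNull_Om, isASE, not_isPhysical⟩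

end Pool.Agent.Results.MP_38a3af_an.NoPhysicalMeasure
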